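import Mathlib

set_option autoImplicit false

namespace Pool.Agent.Results.MP_7f6698_co.InfiniteFamily

/-- The group generated by a triple. -/
def Gam {G : Type} [Group G] (ρ : Fin 3 → G) : Subgroup G := Subgroup.closure (Set.range ρ)

/-- `ρ` is the distinguished generating triple of (the automorphism group of) an abstract regular
polyhedron: the group `Gam ρ` with the generators `ρ i` is a string C-group of rank 3. -/
structure IsStringCGroup {G : Type} [Group G] (ρ : Fin 3 → G) : Prop where
  involution : ∀ i, ρ i ≠ 1 ∧ ρ i * ρ i = 1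
  string : (ρ 0 * ρ 2) ^ 2 = 1
  intersection : Subgroup.closure {ρ 0, ρ 1} ⊓ Subgroup.closure {ρ 1, ρ 2} =
    Subgroup.closure {ρ 1}

/-- Type `{p, q}`. -/
def HasType {G : Type} [Group G] (ρ : Fin 3 → G) (p q : ℕ) : Prop :=
  orderOf (ρ 0 * ρ 1) = p ∧ orderOf (ρ 1 * ρ 2) = q

/-- Internally self-dual: an element of the group conjugates `ρ i` to `ρ (2 - i)`. -/
def InternallySelfDual {G : Type} [Group G] (ρ : Fin 3 → G) : Prop :=
  ∃ g ∈ Gam ρ, g⁻¹ * ρ 0 * g = ρ 2 ∧ g⁻¹ * ρ 1 * g = ρ 1 ∧ g⁻¹ * ρ 2 * g = ρ 0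

/-- Isomorphism of regular polyhedra: an isomorphism of the groups matching the distinguished
generators. -/
def Iso {G H : Type} [Group G] [Group H] (ρ : Fin 3 → G) (σ : Fin 3 → H) : Prop :=
  ∃ f : Gam ρ ≃* Gam σ, ∀ (i : Fin 3) (h : ρ i ∈ Gam ρ), (f ⟨ρ i, h⟩ : H) = σ i

section family

variable (p m : ℕ)

/-- `(i, x) ↦ (1 - i, -x)` -/
def rho0 : Equiv.Perm (ZMod p × ZMod m) :=
  Function.Involutive.toPerm (fun z => (1 - z.1, -z.2)) (by
    rintro ⟨i, x⟩
    simp)

/-- `(i, x) ↦ (-i, -x)` -/
def rho1 : Equiv.Perm (ZMod p × ZMod m) :=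
  Function.Involutive.toPerm (fun z => (-z.1, -z.2)) (by
    rintro ⟨i, x⟩
    simp)

/-- the action of `del` on the fibre over `i` -/
def fib (i : ZMod p) (x : ZMod m) : ZMod m :=
  if i = 1 then 1 - x else if i = -1 then -1 - x else x

lemma fib_fib (i : ZMod p) (x : ZMod m) : fib p m i (fib p m i x) = x := by
  unfold fib
  split_ifs <;> ring

/-- `(1, x) ↦ (1, 1 - x)`, `(-1, x) ↦ (-1, -1 - x)`, all other points are fixed -/
def del : Equiv.Perm (ZMod p × ZMod m) :=
  Function.Involutive.toPerm (fun z => (z.1, fib p m z.1 z.2)) (by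
    rintro ⟨i, x⟩
    simp [fib_fib])

/-- The distinguished generators of the polyhedron `P(p, m)`: permutations of
`ZMod p × ZMod m`. -/
def gens : Fin 3 → Equiv.Perm (ZMod p × ZMod m) := ![rho0 p m, rho1 p m, del p m * rho0 p m * del p m]

variable {p m}

lemma rho0_apply (i : ZMod p) (x : ZMod m) : rho0 p m (i, x) = (1 - i, -x) := rfl
lemma rho1_apply (i : ZMod p) (x : ZMod m) : rho1 p m (i, x) = (-i, -x) := rfl
lemma del_apply (i : ZMod p) (x : ZMod m) : del p m (i, x) = (i, fib p m i x) := rfl

lemma rho0_sq : rho0 p m * rho0 p m = 1 := by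
  ext ⟨i, x⟩ <;> simp [rho0_apply]

lemma rho1_sq : rho1 p m * rho1 p m = 1 := by
  ext ⟨i, x⟩ <;> simp [rho1_apply]

lemma del_sq : del p m * del p m = 1 := by
  ext ⟨i, x⟩ <;> simp [del_apply, fib_fib]

end family

section facts

variable {p m : ℕ} (hp : 5 ≤ p) (hpo : Odd p) (hm : 3 ≤ m) (hmo : Odd m)

include hp in
lemma natCast_ne {k : ℕ} (h0 : 0 < k) (hk : k < 5) : (k : ZMod p) ≠ 0 := by
  intro h
  rw [ZMod.natCast_eq_zero_iff] at h
  have := Nat.le_of_dvd h0 h
  omega

include hp in
lemma one_ne_neg : (1 : ZMod p) ≠ -1 := by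
  intro h
  apply natCast_ne hp (k := 2) (by norm_num) (by norm_num)
  push_cast
  linear_combination h

include hm in
lemma two_ne : (2 : ZMod m) ≠ 0 := by
  intro h
  have h' : ((2 : ℕ) : ZMod m) = 0 := by exact_mod_cast h
  rw [ZMod.natCast_eq_zero_iff] at h'
  have := Nat.le_of_dvd (by norm_num) h'
  omega

lemma fib_one (x : ZMod m) : fib p m 1 x = 1 - x := by
  simp [fib]

include hp in
lemma fib_neg_one (x : ZMod m) : fib p m (-1) x = -1 - x := by
  unfold fib
  rw [if_neg (fun h => one_ne_neg hp h.symm), if_pos rfl]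

lemma fib_other {i : ZMod p} (h1 : i ≠ 1) (h2 : i ≠ -1) (x : ZMod m) : fib p m i x = x := by
  unfold fib
  rw [if_neg h1, if_neg h2]

include hp in
/-- `fib` is compatible with negation -/
lemma fib_neg (i : ZMod p) (x : ZMod m) : fib p m (-i) (-x) = - fib p m i x := by
  by_cases h1 : i = 1
  · rw [h1, fib_neg_one hp, fib_one]; ring
  · by_cases h2 : i = -1
    · rw [h2, neg_neg, fib_one, fib_neg_one hp]; ring
    · rw [fib_other h1 h2, fib_other]
      · intro h; apply h2; rw [← h, neg_neg]
      · intro h; apply h1; exact neg_injective h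

include hp in
lemma del_rho1 : del p m * rho1 p m = rho1 p m * del p m := by
  ext ⟨i, x⟩
  · rfl
  · simp [rho1_apply, del_apply, fib_neg hp]

/-- the conjugate of `del` by `rho0` acts on the fibre over `i` like `del` over `1 - i` -/
lemma conj_apply (i : ZMod p) (x : ZMod m) :
    (rho0 p m * del p m * rho0 p m) (i, x) = (i, -fib p m (1 - i) (-x)) := by
  simp [rho0_apply, del_apply]

include hp in
lemma comm_conj : (rho0 p m * del p m * rho0 p m) * del p m =
    del p m * (rho0 p m * del p m * rho0 p m) := by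
  have h2 : (2 : ZMod p) ≠ 0 := by
    have := natCast_ne hp (k := 2) (by norm_num) (by norm_num)
    exact_mod_cast this
  have h3 : (3 : ZMod p) ≠ 0 := by
    have := natCast_ne hp (k := 3) (by norm_num) (by norm_num)
    exact_mod_cast this
  have h1 : (1 : ZMod p) ≠ 0 := by
    have := natCast_ne hp (k := 1) (by norm_num) (by norm_num)
    exact_mod_cast this
  ext ⟨i, x⟩
  · rfl
  · show ((rho0 p m * del p m * rho0 p m) (i, fib p m i x)).2 =
      (del p m ((rho0 p m * del p m * rho0 p m) (i, x))).2
    rw [conj_apply, conj_apply, del_apply]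
    show -fib p m (1 - i) (-fib p m i x) = fib p m i (-fib p m (1 - i) (-x))
    by_cases ha : i = 1
    · subst ha
      have : ∀ y, fib p m (1 - 1) y = y := by
        intro y
        apply fib_other
        · rw [sub_self]; exact h1.symm
        · rw [sub_self]; intro h; apply h1; linear_combination h
      rw [this, this, neg_neg, neg_neg]
    · by_cases hb : i = -1
      · subst hb
        have : ∀ y, fib p m (1 - -1) y = y := by
          intro y
          apply fib_other
          · intro h; apply h1; linear_combination h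
          · intro h; apply h3; linear_combination h
        rw [this, this, neg_neg, neg_neg]
      · rw [fib_other ha hb, fib_other ha hb]

lemma conj_apply' (i : ZMod p) (x : ZMod m) :
    (rho0 p m * del p m * rho0 p m) (i, x) = (i, -fib p m (1 - i) (-x)) := by
  simp [rho0_apply, del_apply]

/-! ### the rotation `a = ρ0 ρ1` -/

lemma a_apply (i : ZMod p) (x : ZMod m) : (rho0 p m * rho1 p m) (i, x) = (i + 1, x) := by
  show rho0 p m (rho1 p m (i, x)) = _
  rw [rho1_apply, rho0_apply, neg_neg]
  congr 1
  ring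

lemma a_pow_apply (k : ℕ) (i : ZMod p) (x : ZMod m) :
    ((rho0 p m * rho1 p m) ^ k) (i, x) = (i + k, x) := by
  induction k with
  | zero => simp
  | succ k ih =>
    rw [pow_succ', Equiv.Perm.mul_apply, ih, a_apply]
    push_cast
    congr 1
    ring

lemma a_order : orderOf (rho0 p m * rho1 p m) = p := by
  apply Nat.dvd_antisymm
  · apply orderOf_dvd_of_pow_eq_one
    ext ⟨i, x⟩ <;> simp [a_pow_apply]
  · have h := pow_orderOf_eq_one (rho0 p m * rho1 p m)
    have h2 : (0 + ((orderOf (rho0 p m * rho1 p m) : ℕ) : ZMod p), (0 : ZMod m)) = (0, 0) := by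
      rw [← a_pow_apply, h]; rfl
    rw [Prod.mk.injEq, zero_add] at h2
    exact (ZMod.natCast_eq_zero_iff _ _).mp h2.1

lemma gens0 : gens p m 0 = rho0 p m := rfl
lemma gens1 : gens p m 1 = rho1 p m := rfl
lemma gens2 : gens p m 2 = del p m * rho0 p m * del p m := rfl

include hp in
lemma b_order : orderOf (rho1 p m * (del p m * rho0 p m * del p m)) = p := by
  have e : rho1 p m * (del p m * rho0 p m * del p m) =
      del p m * (rho0 p m * rho1 p m)⁻¹ * (del p m)⁻¹ := by
    have e0 : (rho0 p m)⁻¹ = rho0 p m := inv_eq_of_mul_eq_one_left rho0_sq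
    have e1 : (rho1 p m)⁻¹ = rho1 p m := inv_eq_of_mul_eq_one_left rho1_sq
    have e2 : (del p m)⁻¹ = del p m := inv_eq_of_mul_eq_one_left del_sq
    rw [mul_inv_rev, e0, e1, e2]
    simp only [← mul_assoc]
    rw [← del_rho1 hp]
  rw [e]
  have e3 : orderOf (del p m * (rho0 p m * rho1 p m)⁻¹ * (del p m)⁻¹) =
      orderOf ((rho0 p m * rho1 p m)⁻¹) := by
    have := (MulAut.conj (del p m)).orderOf_eq ((rho0 p m * rho1 p m)⁻¹)
    rw [MulAut.conj_apply] at this
    exact this
  rw [e3, orderOf_inv, a_order]

include hp in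
lemma string_rel : (rho0 p m * (del p m * rho0 p m * del p m)) ^ 2 = 1 := by
  have h := comm_conj (m := m) hp
  have e : (rho0 p m * (del p m * rho0 p m * del p m)) ^ 2 =
      ((rho0 p m * del p m * rho0 p m) * del p m) * ((rho0 p m * del p m * rho0 p m) * del p m) := by
    rw [pow_two]; simp only [mul_assoc]
  rw [e]
  nth_rewrite 1 [h]
  have e2 : del p m * (rho0 p m * del p m * rho0 p m) * (rho0 p m * del p m * rho0 p m * del p m) =
      del p m * (rho0 p m * (del p m * (rho0 p m * rho0 p m) * del p m) * rho0 p m) * del p m := by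
    simp only [mul_assoc]
  rw [e2, rho0_sq, mul_one, del_sq, mul_one, rho0_sq, mul_one, del_sq]

/-! ### `del` belongs to the group -/

lemma u_apply (i : ZMod p) (x : ZMod m) :
    (del p m * (rho0 p m * rho1 p m)) (i, x) = (i + 1, fib p m (i + 1) x) := by
  rw [Equiv.Perm.mul_apply, a_apply, del_apply]

lemma u_pow_fst (k : ℕ) (z : ZMod p × ZMod m) :
    (((del p m * (rho0 p m * rho1 p m)) ^ k) z).1 = z.1 + k := by
  induction k with
  | zero => simp
  | succ k ih =>
    rw [pow_succ', Equiv.Perm.mul_apply]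
    generalize ((del p m * (rho0 p m * rho1 p m)) ^ k) z = y at ih
    obtain ⟨i, x⟩ := y
    rw [u_apply]
    simp only at ih ⊢
    rw [ih]
    push_cast
    ring

include hp in
lemma u_pow_zero (k : ℕ) (hk : k + 1 ≤ p - 2) (x : ZMod m) :
    ((del p m * (rho0 p m * rho1 p m)) ^ (k + 1)) (0, x) = (((k + 1 : ℕ) : ZMod p), 1 - x) := by
  induction k with
  | zero =>
    rw [zero_add, pow_one, u_apply, zero_add, fib_one]
    simp
  | succ k ih =>
    rw [pow_succ', Equiv.Perm.mul_apply, ih (by omega), u_apply, fib_other]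
    · push_cast; rfl
    · intro h
      have h2 : ((k + 1 : ℕ) : ZMod p) = 0 := by linear_combination h
      rw [ZMod.natCast_eq_zero_iff] at h2
      have := Nat.le_of_dvd (by omega) h2
      omega
    · intro h
      have h2 : ((k + 1 + 1 + 1 : ℕ) : ZMod p) = 0 := by
        push_cast at h ⊢; linear_combination h
      rw [ZMod.natCast_eq_zero_iff] at h2
      have := Nat.le_of_dvd (by omega) h2
      omega

include hp in
lemma u_pow_p_zero (x : ZMod m) :
    ((del p m * (rho0 p m * rho1 p m)) ^ p) (0, x) = (0, x - 2) := by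
  obtain ⟨k, rfl⟩ : ∃ k, p = k + 1 + 1 + 1 := ⟨p - 3, by omega⟩
  have e : ∀ (u : Equiv.Perm (ZMod (k + 1 + 1 + 1) × ZMod m)) (z : ZMod (k + 1 + 1 + 1) × ZMod m),
      (u ^ (k + 1 + 1 + 1)) z = u (u ((u ^ (k + 1)) z)) := by
    intro u z
    rw [pow_succ', pow_succ']; rfl
  rw [e, u_pow_zero hp k (by omega)]
  have h0 : ((k + 1 + 1 + 1 : ℕ) : ZMod (k + 1 + 1 + 1)) = 0 := ZMod.natCast_self _
  have h1 : ((k + 1 : ℕ) : ZMod (k + 1 + 1 + 1)) + 1 = -1 := by
    push_cast at h0 ⊢; linear_combination h0
  have h1' : (1 : ZMod (k + 1 + 1 + 1)) ≠ 0 := by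
    have := natCast_ne hp (k := 1) (by norm_num) (by norm_num)
    exact_mod_cast this
  rw [u_apply ((k + 1 : ℕ) : ZMod (k + 1 + 1 + 1)) (1 - x), h1, fib_neg_one hp, u_apply,
    neg_add_cancel, fib_other]
  · congr 1; ring
  · exact h1'.symm
  · intro h; apply h1'; linear_combination h

include hp in
lemma u_pow_pm : (del p m * (rho0 p m * rho1 p m)) ^ (p * m) = 1 := by
  set u := del p m * (rho0 p m * rho1 p m) with hu
  have h1 : ∀ (k : ℕ) (x : ZMod m), ((u ^ p) ^ k) (0, x) = (0, x - 2 * k) := by
    intro k x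
    induction k with
    | zero => simp
    | succ k ih =>
      rw [pow_succ', Equiv.Perm.mul_apply, ih, hu, u_pow_p_zero hp]
      push_cast
      congr 1
      ring
  have h2 : ∀ x : ZMod m, (u ^ (p * m)) (0, x) = (0, x) := by
    intro x
    rw [pow_mul, h1]
    simp
  have hp0 : NeZero p := ⟨by omega⟩
  refine Equiv.ext ?_
  intro z
  have hinv : ∀ (g : Equiv.Perm (ZMod p × ZMod m)) (y : ZMod p × ZMod m), g (g⁻¹ y) = y := by
    intro g y
    rw [← Equiv.Perm.mul_apply, mul_inv_cancel, Equiv.Perm.one_apply]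
  have h3 : ((u ^ (z.1.val))⁻¹ z).1 = 0 := by
    have h4 := u_pow_fst (p := p) (m := m) z.1.val ((u ^ (z.1.val))⁻¹ z)
    rw [← hu, hinv, ZMod.natCast_zmod_val] at h4
    linear_combination -h4
  obtain ⟨y, hy⟩ : ∃ y, (u ^ (z.1.val))⁻¹ z = (0, y) := ⟨((u ^ (z.1.val))⁻¹ z).2, by
    rw [← h3]⟩
  have h5 : z = (u ^ (z.1.val)) (0, y) := by
    rw [← hy, hinv]
  rw [h5, ← Equiv.Perm.mul_apply, ← pow_add, add_comm, pow_add, Equiv.Perm.mul_apply, h2]
  simp

lemma mem0 : rho0 p m ∈ Gam (gens p m) := Subgroup.subset_closure ⟨0, rfl⟩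
lemma mem1 : rho1 p m ∈ Gam (gens p m) := Subgroup.subset_closure ⟨1, rfl⟩
lemma mem2 : del p m * rho0 p m * del p m ∈ Gam (gens p m) := Subgroup.subset_closure ⟨2, rfl⟩

include hp hpo hmo in
lemma del_mem : del p m ∈ Gam (gens p m) := by
  set u := del p m * (rho0 p m * rho1 p m) with hu
  have ha : rho0 p m * rho1 p m ∈ Gam (gens p m) := mul_mem mem0 mem1
  have hsq : u * u ∈ Gam (gens p m) := by
    have e : u * u = (del p m * rho0 p m * del p m) * rho1 p m * (rho0 p m * rho1 p m) := by
      rw [hu]
      simp only [mul_assoc]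
      rw [← mul_assoc (rho1 p m) (del p m), ← del_rho1 hp]
      simp only [mul_assoc]
    rw [e]
    exact mul_mem (mul_mem mem2 mem1) ha
  obtain ⟨k, hk⟩ := hpo.mul hmo
  have h1 : u ^ (2 * k + 1) = 1 := by rw [← hk]; exact u_pow_pm hp
  have h2 : u = ((u * u) ^ k)⁻¹ := by
    rw [← pow_two, ← pow_mul]
    rw [eq_inv_iff_mul_eq_one, ← pow_succ']
    exact h1
  have h3 : u ∈ Gam (gens p m) := by
    rw [h2]
    exact inv_mem (pow_mem hsq k)
  have h4 : del p m = u * (rho0 p m * rho1 p m)⁻¹ := by
    rw [hu]; group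
  rw [h4]
  exact mul_mem h3 (inv_mem ha)

/-! ### the intersection property -/

/-- the elements of the dihedral group generated by `rho0` and `rho1` -/
def IsDih (g : Equiv.Perm (ZMod p × ZMod m)) : Prop :=
  (∃ k : ZMod p, ∀ i x, g (i, x) = (i + k, x)) ∨ (∃ k : ZMod p, ∀ i x, g (i, x) = (k - i, -x))

lemma isDih_of_mem {g : Equiv.Perm (ZMod p × ZMod m)}
    (hg : g ∈ Subgroup.closure {rho0 p m, rho1 p m}) : IsDih g := by
  induction hg using Subgroup.closure_induction with
  | mem x hx =>
    rcases hx with rfl | hx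
    · exact Or.inr ⟨1, fun i x => rfl⟩
    · rw [Set.mem_singleton_iff] at hx
      subst hx
      exact Or.inr ⟨0, fun i x => by rw [rho1_apply, zero_sub]⟩
  | one => exact Or.inl ⟨0, fun i x => by simp⟩
  | mul x y _ _ hx hy =>
    rcases hx with ⟨k, hk⟩ | ⟨k, hk⟩ <;> rcases hy with ⟨l, hl⟩ | ⟨l, hl⟩
    · refine Or.inl ⟨l + k, fun i z => ?_⟩
      rw [Equiv.Perm.mul_apply, hl, hk, add_assoc]
    · refine Or.inr ⟨l + k, fun i z => ?_⟩
      rw [Equiv.Perm.mul_apply, hl, hk]
      congr 1; ring
    · refine Or.inr ⟨k - l, fun i z => ?_⟩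
      rw [Equiv.Perm.mul_apply, hl, hk]
      congr 1; ring
    · refine Or.inl ⟨k - l, fun i z => ?_⟩
      rw [Equiv.Perm.mul_apply, hl, hk, neg_neg]
      congr 1; ring
  | inv x _ hx =>
    rcases hx with ⟨k, hk⟩ | ⟨k, hk⟩
    · refine Or.inl ⟨-k, fun i z => ?_⟩
      rw [Equiv.Perm.inv_eq_iff_eq, hk]
      congr 1; ring
    · refine Or.inr ⟨k, fun i z => ?_⟩
      rw [Equiv.Perm.inv_eq_iff_eq, hk, neg_neg]
      congr 1; ring

include hp in
lemma conj_of_mem {g : Equiv.Perm (ZMod p × ZMod m)}
    (hg : g ∈ Subgroup.closure {rho1 p m, del p m * rho0 p m * del p m}) :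
    IsDih (del p m * g * del p m) := by
  apply isDih_of_mem
  have h : Subgroup.closure {rho1 p m, del p m * rho0 p m * del p m} ≤
      (Subgroup.closure {rho0 p m, rho1 p m}).comap (MulAut.conj (del p m)).toMonoidHom := by
    rw [Subgroup.closure_le]
    have e2 : (del p m)⁻¹ = del p m := inv_eq_of_mul_eq_one_left del_sq
    rintro x (rfl | hx)
    · rw [SetLike.mem_coe, Subgroup.mem_comap]
      show del p m * rho1 p m * (del p m)⁻¹ ∈ _
      rw [del_rho1 hp, mul_inv_cancel_right]
      exact Subgroup.subset_closure (Or.inr rfl)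
    · rw [Set.mem_singleton_iff] at hx
      subst hx
      rw [SetLike.mem_coe, Subgroup.mem_comap]
      show del p m * (del p m * rho0 p m * del p m) * (del p m)⁻¹ ∈ _
      have : del p m * (del p m * rho0 p m * del p m) * (del p m)⁻¹ = rho0 p m := by
        rw [e2]
        simp only [mul_assoc]
        rw [del_sq, mul_one, ← mul_assoc, del_sq, one_mul]
      rw [this]
      exact Subgroup.subset_closure (Or.inl rfl)
  have h2 := h hg
  rw [Subgroup.mem_comap] at h2
  have e2 : (del p m)⁻¹ = del p m := inv_eq_of_mul_eq_one_left del_sq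
  have h3 : del p m * g * (del p m)⁻¹ ∈ Subgroup.closure {rho0 p m, rho1 p m} := h2
  rwa [e2] at h3

include hp in
lemma two_ne_p : (2 : ZMod p) ≠ 0 := by
  have := natCast_ne hp (k := 2) (by norm_num) (by norm_num)
  exact_mod_cast this

include hp in
lemma one_ne_p : (1 : ZMod p) ≠ 0 := by
  have := natCast_ne hp (k := 1) (by norm_num) (by norm_num)
  exact_mod_cast this

include hm in
lemma one_ne_m : (1 : ZMod m) ≠ 0 := by
  intro h
  have h' : ((1 : ℕ) : ZMod m) = 0 := by exact_mod_cast h
  rw [ZMod.natCast_eq_zero_iff] at h'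
  have := Nat.le_of_dvd (by norm_num) h'
  omega

include hp hm in
lemma intersection_aux {g : Equiv.Perm (ZMod p × ZMod m)}
    (h1 : g ∈ Subgroup.closure {rho0 p m, rho1 p m})
    (h2 : g ∈ Subgroup.closure {rho1 p m, del p m * rho0 p m * del p m}) :
    g = 1 ∨ g = rho1 p m := by
  have hg := isDih_of_mem h1
  have hh := conj_of_mem hp h2
  have hh2 : IsDih (del p m * g * del p m) := hh
  set h := del p m * g * del p m with hdef
  have key : ∀ i x, g (i, fib p m i x) = del p m (h (i, x)) := by
    intro i x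
    have e : del p m * h = g * del p m := by
      rw [hdef, ← mul_assoc, ← mul_assoc, del_sq, one_mul]
    rw [← Equiv.Perm.mul_apply, e]
    rfl
  have t2p := two_ne_p hp
  have t2m := two_ne hm
  have t1m := one_ne_m hm
  rcases hg with ⟨k, hk⟩ | ⟨k, hk⟩
  · left
    rcases hh2 with ⟨l, hl⟩ | ⟨l, hl⟩
    · have hkl : l = k := by
        have := congrArg Prod.fst (key 0 0)
        rw [hk, hl, del_apply] at this
        simpa using this.symm
      have k1 : ∀ x, 1 - x = fib p m (1 + k) x := by
        intro x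
        have := congrArg Prod.snd (key 1 x)
        rw [hk, hl, del_apply, fib_one, hkl] at this
        exact this
      have hk0 : k = 0 := by
        by_cases ha : 1 + k = 1
        · linear_combination ha
        · exfalso
          by_cases hb : 1 + k = -1
          · have := k1 0
            rw [hb, fib_neg_one hp] at this
            exact t2m (by linear_combination this)
          · have := k1 0
            rw [fib_other ha hb] at this
            exact t1m (by linear_combination this)
      ext ⟨i, x⟩ <;> simp [hk, hk0]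
    · exfalso
      have e0 := congrArg Prod.fst (key 0 0)
      have e1 := congrArg Prod.fst (key 1 0)
      rw [hk, hl, del_apply] at e0 e1
      simp only at e0 e1
      exact t2p (by linear_combination e1 - e0)
  · right
    rcases hh2 with ⟨l, hl⟩ | ⟨l, hl⟩
    · exfalso
      have e0 := congrArg Prod.fst (key 0 0)
      have e1 := congrArg Prod.fst (key 1 0)
      rw [hk, hl, del_apply] at e0 e1
      simp only at e0 e1
      exact t2p (by linear_combination e0 - e1)
    · have hkl : l = k := by
        have := congrArg Prod.fst (key 0 0)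
        rw [hk, hl, del_apply] at this
        simpa using this.symm
      have k1 : ∀ x, -(1 - x) = fib p m (k - 1) (-x) := by
        intro x
        have := congrArg Prod.snd (key 1 x)
        rw [hk, hl, del_apply, fib_one, hkl] at this
        exact this
      have hk0 : k = 0 := by
        by_cases ha : k - 1 = 1
        · exfalso
          have := k1 0
          rw [ha, fib_one] at this
          exact t2m (by linear_combination -this)
        · by_cases hb : k - 1 = -1
          · linear_combination hb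
          · exfalso
            have := k1 0
            rw [fib_other ha hb] at this
            exact t1m (by linear_combination -this)
      ext ⟨i, x⟩ <;> simp [hk, hk0, rho1_apply]

include hp hm in
lemma intersection_prop :
    Subgroup.closure {rho0 p m, rho1 p m} ⊓
      Subgroup.closure {rho1 p m, del p m * rho0 p m * del p m} = Subgroup.closure {rho1 p m} := by
  apply le_antisymm
  · rintro g ⟨h1, h2⟩
    rcases intersection_aux hp hm h1 h2 with rfl | rfl
    · exact one_mem _
    · exact Subgroup.subset_closure rfl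
  · rw [Subgroup.closure_le]
    rintro g hg
    rw [Set.mem_singleton_iff] at hg
    subst hg
    exact ⟨Subgroup.subset_closure (Or.inr rfl), Subgroup.subset_closure (Or.inl rfl)⟩

/-! ### involutions -/

include hp in
lemma rho0_ne : rho0 p m ≠ 1 := by
  intro h
  have h2 : rho0 p m (0, 0) = (0, 0) := by rw [h]; rfl
  rw [rho0_apply] at h2
  have := congrArg Prod.fst h2
  simp only at this
  exact one_ne_p hp (by linear_combination this)

include hp in
lemma rho1_ne : rho1 p m ≠ 1 := by
  intro h
  have h2 : rho1 p m (1, 0) = (1, 0) := by rw [h]; rfl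
  rw [rho1_apply] at h2
  have := congrArg Prod.fst h2
  simp only at this
  exact two_ne_p hp (by linear_combination -this)

include hp in
lemma rho2_ne : del p m * rho0 p m * del p m ≠ 1 := by
  intro h
  apply rho0_ne (m := m) hp
  have : rho0 p m = del p m * (del p m * rho0 p m * del p m) * del p m := by
    simp only [mul_assoc]
    rw [del_sq, mul_one, ← mul_assoc, del_sq, one_mul]
  rw [this, h, mul_one, del_sq]

lemma rho2_sq : (del p m * rho0 p m * del p m) * (del p m * rho0 p m * del p m) = 1 := by
  have : (del p m * rho0 p m * del p m) * (del p m * rho0 p m * del p m) =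
    del p m * (rho0 p m * (del p m * del p m) * rho0 p m) * del p m := by
    simp only [mul_assoc]
  rw [this, del_sq, mul_one, rho0_sq, mul_one, del_sq]

include hp hm in
lemma isStringC : IsStringCGroup (gens p m) where
  involution := by
    intro i
    fin_cases i
    · exact ⟨rho0_ne hp, rho0_sq⟩
    · exact ⟨rho1_ne hp, rho1_sq⟩
    · exact ⟨rho2_ne hp, rho2_sq⟩
  string := string_rel hp
  intersection := intersection_prop hp hm

include hp in
lemma hasType : HasType (gens p m) p p := ⟨a_order, b_order hp⟩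

include hp hpo hmo in
lemma selfDual : InternallySelfDual (gens p m) := by
  have e2 : (del p m)⁻¹ = del p m := inv_eq_of_mul_eq_one_left del_sq
  refine ⟨del p m, del_mem hp hpo hmo, ?_, ?_, ?_⟩
  · rw [e2]; rfl
  · rw [e2]
    show del p m * rho1 p m * del p m = rho1 p m
    rw [del_rho1 hp, mul_assoc, del_sq, mul_one]
  · rw [e2]
    show del p m * (del p m * rho0 p m * del p m) * del p m = rho0 p m
    simp only [mul_assoc]
    rw [del_sq, mul_one, ← mul_assoc, del_sq, one_mul]

/-! ### an invariant which recovers `m` -/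

/-- the word `(ρ0 ρ1)(ρ0 ρ2)(ρ1 ρ0)(ρ0 ρ2)` -/
def word {G : Type} [Group G] (ρ : Fin 3 → G) : G :=
  (ρ 0 * ρ 1) * (ρ 0 * ρ 2) * (ρ 1 * ρ 0) * (ρ 0 * ρ 2)

/-- the action of `ρ0 ρ2` on the fibre over `i` -/
def bb (i : ZMod p) (x : ZMod m) : ZMod m := -fib p m (1 - i) (-fib p m i x)

lemma b_apply (i : ZMod p) (x : ZMod m) :
    (rho0 p m * (del p m * rho0 p m * del p m)) (i, x) = (i, bb i x) := by
  have e : rho0 p m * (del p m * rho0 p m * del p m) =
      (rho0 p m * del p m * rho0 p m) * del p m := by simp only [mul_assoc]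
  rw [e, Equiv.Perm.mul_apply, del_apply, conj_apply]
  rfl

lemma ainv_apply (i : ZMod p) (x : ZMod m) : (rho1 p m * rho0 p m) (i, x) = (i - 1, x) := by
  show rho1 p m (rho0 p m (i, x)) = _
  rw [rho0_apply, rho1_apply, neg_neg]
  congr 1
  ring

lemma word_apply (i : ZMod p) (x : ZMod m) :
    word (gens p m) (i, x) = (i, bb (i - 1) (bb i x)) := by
  show ((rho0 p m * rho1 p m) * (rho0 p m * (del p m * rho0 p m * del p m)) *
    (rho1 p m * rho0 p m) * (rho0 p m * (del p m * rho0 p m * del p m))) (i, x) = _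
  rw [Equiv.Perm.mul_apply, b_apply, Equiv.Perm.mul_apply, ainv_apply, Equiv.Perm.mul_apply,
    b_apply, a_apply]
  congr 1
  ring

include hp in
lemma three_ne_p : (3 : ZMod p) ≠ 0 := by
  have := natCast_ne hp (k := 3) (by norm_num) (by norm_num)
  exact_mod_cast this

include hp in
lemma four_ne_p : (4 : ZMod p) ≠ 0 := by
  have := natCast_ne hp (k := 4) (by norm_num) (by norm_num)
  exact_mod_cast this

include hp in
lemma bb_one (x : ZMod m) : bb (1 : ZMod p) x = 1 - x := by
  unfold bb
  rw [fib_one, fib_other, neg_neg]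
  · intro h; exact one_ne_p hp (by linear_combination -h)
  · intro h; exact one_ne_p hp (by linear_combination h)

include hp in
lemma bb_neg_one (x : ZMod m) : bb (-1 : ZMod p) x = -1 - x := by
  unfold bb
  rw [fib_neg_one hp, fib_other, neg_neg]
  · intro h; exact one_ne_p hp (by linear_combination h)
  · intro h; exact three_ne_p hp (by linear_combination h)

include hp in
lemma bb_zero (x : ZMod m) : bb (0 : ZMod p) x = -1 - x := by
  unfold bb
  rw [sub_zero, fib_one, fib_other]
  · ring
  · intro h; exact one_ne_p hp (by linear_combination -h)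
  · intro h; exact one_ne_p hp (by linear_combination h)

include hp in
lemma bb_two (x : ZMod m) : bb (2 : ZMod p) x = 1 - x := by
  unfold bb
  have e : (1 : ZMod p) - 2 = -1 := by ring
  rw [e, fib_neg_one hp, fib_other]
  · ring
  · intro h; exact one_ne_p hp (by linear_combination h)
  · intro h; exact three_ne_p hp (by linear_combination h)

lemma bb_other {i : ZMod p} (h1 : i ≠ 1) (h2 : i ≠ -1) (h3 : i ≠ 0) (h4 : i ≠ 2) (x : ZMod m) :
    bb i x = x := by
  unfold bb
  rw [fib_other h1 h2, fib_other, neg_neg]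
  · intro h; exact h3 (by linear_combination -h)
  · intro h; exact h4 (by linear_combination -h)

include hp in
lemma word_sq (i : ZMod p) (x : ZMod m) :
    (word (gens p m) ^ 2) (i, x) = (i, if i = 1 then x - 4 else x) := by
  have o1 := one_ne_p hp
  have o2 := two_ne_p hp
  have o3 := three_ne_p hp
  have o4 := four_ne_p hp
  rw [pow_two, Equiv.Perm.mul_apply, word_apply, word_apply]
  congr 1
  by_cases c1 : i = 1
  · subst c1
    rw [if_pos rfl, sub_self, bb_one hp, bb_zero hp, bb_one hp, bb_zero hp]
    ring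
  · rw [if_neg c1]
    by_cases c0 : i = 0
    · subst c0
      rw [zero_sub, bb_zero hp, bb_neg_one hp, bb_zero hp, bb_neg_one hp]
      ring
    · by_cases c2 : i = 2
      · subst c2
        have e : (2 : ZMod p) - 1 = 1 := by ring
        rw [e, bb_two hp, bb_one hp, bb_two hp, bb_one hp]
        ring
      · by_cases c3 : i = 3
        · subst c3
          have e : (3 : ZMod p) - 1 = 2 := by ring
          have e3 : ∀ y : ZMod m, bb (3 : ZMod p) y = y := by
            intro y
            apply bb_other
            · intro h; exact o2 (by linear_combination h)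
            · intro h; exact o4 (by linear_combination h)
            · exact o3
            · intro h; exact o1 (by linear_combination h)
          rw [e, e3, e3, bb_two hp, bb_two hp]
          ring
        · by_cases cn : i = -1
          · subst cn
            have e3 : ∀ y : ZMod m, bb (-1 - 1 : ZMod p) y = y := by
              intro y
              apply bb_other
              · intro h; exact o3 (by linear_combination -h)
              · intro h; exact o1 (by linear_combination -h)
              · intro h; exact o2 (by linear_combination -h)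
              · intro h; exact o4 (by linear_combination -h)
            rw [e3, e3, bb_neg_one hp, bb_neg_one hp]
            ring
          · have e3 : ∀ y : ZMod m, bb i y = y := fun y => bb_other c1 cn c0 c2 y
            have e4 : ∀ y : ZMod m, bb (i - 1) y = y := by
              intro y
              apply bb_other
              · intro h; exact c2 (by linear_combination h)
              · intro h; exact c0 (by linear_combination h)
              · intro h; exact c1 (by linear_combination h)
              · intro h; exact c3 (by linear_combination h)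
            rw [e3, e3, e4, e4]

include hp in
lemma word_pow (k : ℕ) (i : ZMod p) (x : ZMod m) :
    (word (gens p m) ^ (2 * k)) (i, x) = (i, if i = 1 then x - 4 * k else x) := by
  rw [pow_mul]
  induction k with
  | zero => simp
  | succ k ih =>
    rw [pow_succ', Equiv.Perm.mul_apply, ih, word_sq hp]
    congr 1
    split_ifs
    · push_cast; ring
    · rfl

include hp in
lemma word_pow_m : word (gens p m) ^ (2 * m) = 1 := by
  ext ⟨i, x⟩ <;> simp [word_pow hp]

include hp hmo in
lemma dvd_of_word_pow {k : ℕ} (h : word (gens p m) ^ (2 * k) = 1) : m ∣ k := by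
  have h1 : (word (gens p m) ^ (2 * k)) (1, 0) = (1, 0) := by rw [h]; rfl
  rw [word_pow hp] at h1
  have h2 := congrArg Prod.snd h1
  simp only [if_true] at h2
  have h3 : ((4 * k : ℕ) : ZMod m) = 0 := by
    push_cast; linear_combination -h2
  rw [ZMod.natCast_eq_zero_iff] at h3
  have hc : Nat.Coprime m 4 := by
    have : Nat.Coprime m 2 := by
      rw [Nat.coprime_two_right]; exact hmo
    exact Nat.Coprime.mul_right this this
  exact hc.dvd_of_dvd_mul_left h3

end facts

/-- an isomorphism transports the relation `word ^ k = 1` -/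
lemma word_iso {G H : Type} [Group G] [Group H] {ρ : Fin 3 → G} {σ : Fin 3 → H} (h : Iso ρ σ)
    {k : ℕ} (hk : word ρ ^ k = 1) : word σ ^ k = 1 := by
  obtain ⟨f, hf⟩ := h
  have hm : ∀ i, ρ i ∈ Gam ρ := fun i => Subgroup.subset_closure ⟨i, rfl⟩
  let r : Fin 3 → Gam ρ := fun i => ⟨ρ i, hm i⟩
  have h1 : (word r ^ k : Gam ρ) = 1 := by
    apply Subtype.ext
    exact hk
  have h2 : f (word r ^ k) = 1 := by rw [h1, map_one]
  have h3 : ((f (word r ^ k) : Gam σ) : H) = word σ ^ k := by
    rw [map_pow]
    simp only [word, map_mul, Subgroup.coe_pow, Subgroup.coe_mul]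
    show (f ⟨ρ 0, hm 0⟩ * f ⟨ρ 1, hm 1⟩ * (f ⟨ρ 0, hm 0⟩ * f ⟨ρ 2, hm 2⟩) *
      (f ⟨ρ 1, hm 1⟩ * f ⟨ρ 0, hm 0⟩) * (f ⟨ρ 0, hm 0⟩ * f ⟨ρ 2, hm 2⟩) : H) ^ k = _
    simp only [hf]
  rw [← h3, h2]
  rfl

lemma iso_symm {G H : Type} [Group G] [Group H] {ρ : Fin 3 → G} {σ : Fin 3 → H} (h : Iso ρ σ) :
    Iso σ ρ := by
  obtain ⟨f, hf⟩ := h
  refine ⟨f.symm, ?_⟩
  intro i hi
  have h0 : ρ i ∈ Gam ρ := Subgroup.subset_closure ⟨i, rfl⟩
  have h1 : f ⟨ρ i, h0⟩ = ⟨σ i, hi⟩ := Subtype.ext (hf i h0)
  rw [← h1, MulEquiv.symm_apply_apply]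

/-- **Result.** For every odd `p ≥ 5` the triples `gens p m`, `m ≥ 3` odd, form an infinite family
of pairwise non-isomorphic finite internally self-dual regular polyhedra of type `{p, p}`. -/
theorem result (p : ℕ) (hp : 5 ≤ p) (hpo : Odd p) :
    (∀ m : ℕ, 3 ≤ m → Odd m →
      IsStringCGroup (gens p m) ∧ HasType (gens p m) p p ∧ InternallySelfDual (gens p m) ∧
        Finite (Gam (gens p m))) ∧
    (∀ m m' : ℕ, 3 ≤ m → Odd m → 3 ≤ m' → Odd m' → m ≠ m' → ¬ Iso (gens p m) (gens p m')) := by
  refine ⟨?_, ?_⟩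
  · intro m hm hmo
    refine ⟨isStringC hp hm, hasType hp, selfDual hp hpo hmo, ?_⟩
    have h1 : NeZero p := ⟨by omega⟩
    have h2 : NeZero m := ⟨by omega⟩
    infer_instance
  · intro m m' hm hmo hm' hmo' hne hiso
    apply hne
    apply Nat.dvd_antisymm
    · exact dvd_of_word_pow hp hmo (word_iso (iso_symm hiso) (word_pow_m hp))
    · exact dvd_of_word_pow hp hmo' (word_iso hiso (word_pow_m hp))

end Pool.Agent.Results.MP_7f6698_co.InfiniteFamily
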